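import Pool.Agent.Run7.h105.FJ.Low
import Pool.Agent.Run7.h909.GT.Fin
import Pool.Agent.Run7.h909.GT.Ord
import Pool.Agent.Run7.h909.GT.Modz

/-!
# Projective class groups and `GL_2` of polynomial rings and of other rings with a degree function

`C` is any class of groups with the closure properties `ClosedE C` which contains the solvable groups.
All this is known for the class of the groups whose wreath products with finite groups satisfy the
K- and L-theoretic Farrell-Jones conjecture with coefficients; this class also contains `GL_m(ℚ)` and
`GL_m(F(t))`, `F` finite (Rüping), hence `GL_2(K)` for all number fields `K` and all algebraic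
extensions `K` of `F(t)`.

The torsion-free groups in this class satisfy the assertion of Q1, `K0Regular G`: for all regular rings `R`
the map `K_0(R) → K_0(RG)` is bijective. This is the hypothesis `hP`; it is known for the groups which
satisfy the K-theoretic Farrell-Jones conjecture with coefficients (Bartels, Lück and Reich). In the
Lean `K_0` is described by idempotent matrices. So Q1 holds for all torsion-free subgroups of the groups
below (`TfSub K0Regular G`).
For instance it holds for all torsion-free subgroups of `GL_2(ℤ[x_1, ..., x_n])` and of
`GL_2(K[x_1, ..., x_n])` with `K` as above.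

The statements on `C` are due to helper909 (first handed in as `MP_98022b_gt.DegreeRings`).

A degree function on a commutative ring `R` is a function `deg : R → ℤ ∪ {-∞}` with `deg x = -∞` only
for `x = 0`, `deg (x y) = deg x + deg y` and `deg (x + y) ≤ max (deg x) (deg y)` (minus a discrete
valuation). Examples are the total degree of polynomials, the degree in one of the variables, the top
degree of the elements of a graded integral domain, and the order of the pole of the functions on an
affine curve with one place at infinity.

* (1) If `A` is an integral domain and `GL_2(A)` is in `C`, then `GL_2(A[x_i, i ∈ σ])` is in `C` for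
  every set `σ` of variables.
* (2) `GL_2(ℤ[x_i, i ∈ σ])` is in `C`, and so is `GL_2(A)` for every finitely generated domain `A` over
  an algebraic extension `K` of a finite field, if `A` has a nonnegative degree function such that the
  elements of bounded degree span finite dimensional spaces over `K`.
* (3) Let `A` be a ring with a nonnegative degree function and `J` an ideal such that for every `n` some
  power of `J` has no nonzero elements of degree at most `n`. If `GL_2(A / J)` is in `C`, then
  `GL_2(A)` is in `C`.
* (4) Let `A` be a noetherian domain over a field `K` with a nonnegative degree function such that the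
  elements of bounded degree span finite dimensional spaces over `K`. If `GL_2(A / J)` is in `C` for
  one proper ideal `J` (for instance a maximal one), then `GL_2(A)` is in `C`.
* (5) Let `L` be a ring with a homomorphism `θ` to the matrices over a ring `R` with a degree function,
  such that every nonzero element of `L` has an entry of nonnegative degree, and let `J` be an ideal of
  `L` such that for every `n` some power of `J` has no nonzero elements with entries of degree at most
  `n`. If the unit group of `L / J` is in `C`, then the unit group of `L` is in `C`. This covers the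
  orders in quaternion algebras over function fields which are split at the only place at infinity.
* (6) Let `ρ` be a homomorphism from a group `G` to `GL_2(R)`, where `R` is a ring with a degree
  function. Suppose that for every `n` there is a homomorphism from `G` to a group in `C` which does not
  kill any `g ≠ 1` for which the entries of `ρ g` and of `ρ g⁻¹` have degrees with sum at most `n`. Then
  `G` is in `C`.

Outline of the proof. For columns `u`, `w`, `k`, `l` with two entries one has the relation
`(u ∧ w) (k ∧ l) = (u ∧ k) (w ∧ l) - (u ∧ l) (w ∧ k)`. So `W g h`, the maximum of the degrees of the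
products `u ∧ w` of a column `u` of `g` and a column `w` of `h`, satisfies the four point condition, and
`d g h = 2 W g h - deg (det g) - deg (det h)` is an integral metric on `GL_2(R)`, invariant under left
multiplications, with the four point condition and with integral Gromov products. It embeds in a tree
with an action of `GL_2(R)` (`GT.Chis`: the vertices are the functions `s ↦ d(s, p)` of the points `p` on
segments, and two of them are adjacent if they differ by one everywhere). The stabilizers of the
vertices consist of elements of bounded degree, which are detected by the homomorphisms in (6), so that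
the theorem on trees with one homomorphism for each vertex can be applied (`N24.TR.tree_local`). In (3)
the homomorphisms are the reductions modulo the powers of `J`, with nilpotent kernels over `GL_2(A/J)`.
-/

set_option autoImplicit false

namespace Pool.Agent.Results.MP_1a2884_al.DegreeRings

open Pool.Agent.Y110.FJ (ClosedE)
open Run7.h909.GT
open Run7.h105.FJ (TorsionFree K0Regular TfSub tfSub)

open scoped MatrixGroups

theorem result (C : ∀ (G : Type) [Group G], Prop) (hC : ClosedE C)
    (hsol : ∀ (G : Type) [Group G], Group.IsSolvable G → C G)
    (hP : ∀ (G : Type) [Group G], C G → TorsionFree G → K0Regular G) :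
    -- torsion-free subgroups of the groups in `C`
    (∀ (G : Type) [Group G], C G → TfSub K0Regular G) ∧
    (∀ σ : Type, TfSub K0Regular (GL (Fin 2) (MvPolynomial σ ℤ))) ∧
    -- (1)
    (∀ (A σ : Type) [CommRing A] [IsDomain A], C (GL (Fin 2) A) →
      C (GL (Fin 2) (MvPolynomial σ A))) ∧
    -- (2)
    (∀ σ : Type, C (GL (Fin 2) (MvPolynomial σ ℤ))) ∧
    (∀ (K A : Type) [Field K] (p : ℕ) [Fact p.Prime] [Algebra (ZMod p) K]
      [Algebra.IsAlgebraic (ZMod p) K] [CommRing A] [IsDomain A] [Algebra K A]
      [Algebra.FiniteType K A] (deg : A → WithBot ℤ), IsDeg deg → (∀ x, x ≠ 0 → 0 ≤ deg x) →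
      (∀ n : ℕ, ∃ V : Submodule K A, FiniteDimensional K V ∧ ∀ x, deg x ≤ n → x ∈ V) →
      C (GL (Fin 2) A)) ∧
    -- (3)
    (∀ (A : Type) [CommRing A] [Nontrivial A] (deg : A → WithBot ℤ), IsDeg deg →
      (∀ x, x ≠ 0 → 0 ≤ deg x) → ∀ J : Ideal A, C (GL (Fin 2) (A ⧸ J)) →
      (∀ n : ℕ, ∃ k : ℕ, ∀ x ∈ J ^ k, deg x ≤ n → x = 0) → C (GL (Fin 2) A)) ∧
    -- (4)
    (∀ (K A : Type) [Field K] [CommRing A] [IsDomain A] [IsNoetherianRing A] [Algebra K A]
      (deg : A → WithBot ℤ), IsDeg deg → (∀ x, x ≠ 0 → 0 ≤ deg x) →
      (∀ n : ℕ, ∃ V : Submodule K A, FiniteDimensional K V ∧ ∀ x, deg x ≤ n → x ∈ V) →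
      ∀ J : Ideal A, J ≠ ⊤ → C (GL (Fin 2) (A ⧸ J)) → C (GL (Fin 2) A)) ∧
    -- (5)
    (∀ (R L : Type) [CommRing R] [Nontrivial R] [Ring L] (deg : R → WithBot ℤ), IsDeg deg →
      ∀ θ : L →+* Matrix (Fin 2) (Fin 2) R, (∀ x, x ≠ 0 → ∃ i j, 0 ≤ deg (θ x i j)) →
      ∀ (J : Ideal L) [J.IsTwoSided], C (L ⧸ J)ˣ →
      (∀ n : ℕ, ∃ k : ℕ, ∀ x ∈ J ^ k, (∀ i j, deg (θ x i j) ≤ n) → x = 0) → C Lˣ) ∧
    -- (6)
    (∀ (R G : Type) [CommRing R] [Nontrivial R] [Group G] (deg : R → WithBot ℤ), IsDeg deg →
      ∀ ρ : G →* GL (Fin 2) R,
      (∀ n : ℕ, ∃ (P : Type) (_ : Group P) (f : G →* P), C P ∧ ∀ g : G,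
        (∀ i j k l, deg (ρ g i j) + deg (ρ g⁻¹ k l) ≤ n) → f g = 1 → g = 1) → C G) := by
  refine ⟨fun G _ h => tfSub hC hP G h,
    fun σ => tfSub hC hP _ (mvpoly_mem hC hsol σ (GL2Z_mem hC)), ?_, ?_, ?_, ?_, ?_, ?_, ?_⟩
  · intro A σ _ _ h
    exact mvpoly_mem hC hsol σ h
  · intro σ
    exact mvpoly_mem hC hsol σ (GL2Z_mem hC)
  · intro K A _ p _ _ _ _ _ _ _ deg h h0 hfd
    exact affine_algfin_mem hC hsol K p h h0 hfd
  · intro A _ _ deg h h0 J hJ hn
    exact ring_mem hC hsol h h0 J hJ hn
  · intro K A _ _ _ _ _ deg h h0 hfd J hJ1 hJ
    exact fin_mem hC hsol K h h0 hfd J hJ1 hJ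
  · intro R L _ _ _ deg h θ h0 J _ hJ hn
    exact order_mem hC hsol h θ h0 J hJ hn
  · intro R G _ _ _ deg h ρ hP
    exact gl2_rep hC h ρ hP

end Pool.Agent.Results.MP_1a2884_al.DegreeRings
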