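import Pool.Agent.Run7.h650.GM.Main2
import Pool.Agent.Run7.h105.FJ.Low

/-!
# Extensions by groups which act on trees with abelian edge groups, and projective class groups

`C` is any class of groups with the closure properties `ClosedE C` (it contains `ℤ`; it is closed under
subgroups, finite direct products, free products, overgroups of finite index and directed colimits; and
it satisfies the extension criterion of the Farrell-Jones conjecture) which contains the groups of
derived length at most two and the groups `F ⋊ ℤ` for all free groups `F`. All this is published for the
class of the groups which satisfy the K-theoretic Farrell-Jones Conjecture with coefficients and finite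
wreath products (Bartels, Bestvina, Brück, Farrell, Fujiwara, Kielak, Lück, Reich, Wegner,
Wigglesworth, Wu).

The torsion-free groups in this class satisfy the assertion of Q1, `K0Regular G`: for all regular rings `R`
the map `K_0(R) → K_0(RG)` is bijective. This is the hypothesis `hP`; it is known for the groups which
satisfy the K-theoretic Farrell-Jones conjecture with coefficients (Bartels, Lück and Reich). In the
Lean `K_0` is described by idempotent matrices. So Q1 holds for all torsion-free subgroups of the groups
below (`TfSub K0Regular G`).

The statement on `C` is due to helper650 (first handed in as `MP_2a0850_gt.TreeKernels`).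

**Theorem.** Let `Γ` act on a tree `T`, let `N` be a normal subgroup of `Γ` with `Γ ⧸ N` in `C`, and let
`M` be a subgroup of finite index in `N`. Suppose that the stabilizers `N_v` of the vertices in `N` are
finitely generated and that the stabilizers `M_e` of the edges in `M` are abelian. Suppose that for each
vertex `v` one of the following conditions is satisfied:

* `M_v` embeds in a direct product of finitely many free groups (of any rank);
* `N_v ⟨g⟩` is in `C` for all `g ∈ Γ_v`, and for each edge `e` at `v` finitely many homomorphisms from
  `M_v` to free groups are jointly injective on `M_e`.

Then `Γ` is in `C`, and so Q1 holds for all torsion-free subgroups of `Γ`.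

There is no condition on the quotient graph `N \ T`, on the inclusions of the edge groups, or on `N`
as a whole (`N` need not be finitely generated, and it need not be residually finite, for instance
`N = BS(2, 3)`). The theorem covers all extensions of groups in `C` by the fundamental groups of graphs of
groups whose vertex groups are finitely generated subgroups of direct products of free groups, for
instance `ℤ^k × F`, and whose edge groups are abelian, provided that the extension acts on the tree:
closed graph 3-manifolds (in a finite cover all pieces are products `surface × circle`, and the tree of
the JSJ decomposition is characteristic), the higher graph manifolds with pieces `surface × torus`,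
tubular groups, generalized Baumslag-Solitar groups, graphs of free groups with cyclic edge groups. It
also covers the closed Haken 3-manifolds whose JSJ decomposition is not trivial and has a hyperbolic
piece: by Przytycki and Wise their groups are virtually special, so that a subgroup `M` of finite index
has a homomorphism to a free abelian group which is injective on all `M_e`. So Q1 holds for the
fundamental groups of closed aspherical manifolds which are fibre bundles with such fibres over closed
aspherical manifolds with fundamental group in `C`.

Outline of the proof.

* The core of `M` in `Γ` has a locally finite quotient in `N`, so one can assume that `M = N`. The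
  finitely generated subgroups of `Γ` act with finitely many orbits of edges on invariant subtrees.
* Let `F` be a free group, `W` a normal subgroup and `b ∉ W`. Then no nontrivial power of `b` is in
  `[W, W]`, since the subgroup `W ⟨b⟩` is free, its abelianization is torsion-free, and `b` is not in
  its commutator subgroup, which is contained in `W`. If `b ≠ 1` then for all large primes `p` the
  element `b` survives in a finite quotient of `F` of exponent `p`, by unitriangular matrices.
* So for all large primes `p` there are characteristic subgroups `F_v` of finite index in `N_v` such that
  `N_v ⧸ F_v` has exponent `p`, `F_v` meets `N_e` in the group of the `p`-th powers, and this group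
  intersects `[F_v, F_v]` trivially.
* The groups `F_v` agree on the edge groups. So free actions of the finite groups `N_v ⧸ F_v` on a
  finite set can be glued along the tree to a homomorphism from `N` to a finite symmetric group whose
  kernel meets `N_v` in a subgroup of `F_v`. Let `L` be the core of this kernel in `Γ`. Then `Γ ⧸ L` is
  in `C`, since `N ⧸ L` is locally finite.
* The edge groups of `L` embed in the first homology of its vertex groups, so that the theorem of
  `N509.TK` on such actions can be applied.
* For the first condition: if a subgroup `A` of a direct product of finitely many free groups is normal
  in `J` and `J ⧸ A` is in `C`, then `J` is in `C`. Two commuting nontrivial normal subgroups exist in no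
  nonabelian free group, so the homomorphisms from `A` to free groups with nonabelian images factor
  through the projections, and `J` permutes the minimal kernels of such homomorphisms.
-/

set_option autoImplicit false

namespace Pool.Agent.Results.MP_1a2884_al.TreeKernels

open Pool.Agent.Y110.FJ (ClosedE)
open Run7.h105.FJ (TorsionFree K0Regular TfSub tfSub)

/-- finitely many homomorphisms from `U` to free groups have no common nontrivial zero in `E` -/
def Detected {U : Type} [Group U] (E : Set U) : Prop :=
  ∃ (r : ℕ) (X : Fin r → Type) (φ : ∀ i, U →* FreeGroup (X i)),
    ∀ x ∈ E, (∀ i, φ i x = 1) → x = 1

theorem result (C : ∀ (G : Type) [Group G], Prop) (hC : ClosedE C)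
    (hM : ∀ (G : Type) [Group G], derivedSeries G 2 = ⊥ → C G)
    (hF : ∀ (X : Type) (α : MulAut (FreeGroup X)),
      C (FreeGroup X ⋊[zpowersHom (MulAut (FreeGroup X)) α] Multiplicative ℤ))
    (hP : ∀ (G : Type) [Group G], C G → TorsionFree G → K0Regular G)
    (Γ V : Type) [Group Γ] [MulAction Γ V] (T : SimpleGraph V) (hT : T.IsTree)
    (hact : ∀ (g : Γ) (u v : V), T.Adj u v → T.Adj (g • u) (g • v))
    (N : Subgroup Γ) [N.Normal] (hQ : C (Γ ⧸ N))
    (M : Subgroup Γ) (hMN : M ≤ N) (hMi : M.relIndex N ≠ 0)
    (hfg : ∀ v : V, (N ⊓ MulAction.stabilizer Γ v).FG)
    (hab : ∀ v w, T.Adj v w → ∀ x ∈ M, ∀ y ∈ M, x • v = v → x • w = w → y • v = v → y • w = w →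
      x * y = y * x)
    (hV : ∀ v : V, Detected (Set.univ : Set ↥(M ⊓ MulAction.stabilizer Γ v)) ∨
      ((∀ g : Γ, g • v = v → C ↥((N ⊓ MulAction.stabilizer Γ v) ⊔ Subgroup.zpowers g)) ∧
        ∀ w, T.Adj v w → Detected {x : ↥(M ⊓ MulAction.stabilizer Γ v) | (x : Γ) • w = w})) :
    C Γ ∧ TfSub K0Regular Γ := by
  have h : C Γ := by
    refine Pool.Agent.Run7.h650.GM.main2 hC hM hF hT hact N hQ M hMN hMi hfg hab fun v => ?_
    rcases hV v with ⟨r, X, φ, hφ⟩ | ⟨h1, h2⟩
    · exact Or.inl ⟨r, X, φ, fun x => hφ x (Set.mem_univ x)⟩
    · exact Or.inr ⟨h1, h2⟩
  exact ⟨h, tfSub hC hP Γ h⟩

end Pool.Agent.Results.MP_1a2884_al.TreeKernels
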