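import Pool.Agent.Run7.h909.TD.Trees

/-!
# Groups acting on complexes of dimension two and of nonpositive curvature

Problem `MP_1a2884_al`, question Q1 (the projective class groups of group rings of torsion-free groups over
regular rings).

Let `C` be a class of groups with the closure properties `ClosedE` (`C` contains the infinite cyclic group,
it is closed under subgroups, finite products, free products, overgroups of finite index and directed
colimits, and it satisfies the extension criterion). Suppose also `CatC C`: the class contains the groups
which act properly and cocompactly by isometries on a simply connected locally finite piecewise Euclidean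
complex of dimension two and of nonpositive curvature. All this is known for the class of the groups whose
wreath products with finite groups satisfy the K-theoretic Farrell-Jones conjecture with coefficients in
additive categories (Wegner for `CatC`). For torsion-free groups `G` in this class and regular rings `R` the
map `K_0(R) → K_0(RG)` is bijective (Bartels-Lück-Reich), which is the assertion of Q1. So Q1 holds for all
torsion-free groups `G` as below.

This theorem of helper909 was first handed in for the K-theoretic conjecture for all groups and rings
(`MP_e40716_gt.TwoDimensionalComplexes`).

A piecewise Euclidean complex of dimension two is described by a graph `T`, by the set `F` of the closed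
edge paths along which convex Euclidean polygons are glued in, by the lengths `ℓ` of the edges and by the
angles `w` of the polygons; the structure `Cx` contains Gromov's link condition. There may be infinitely
many isometry types of polygons, and the complex is not supposed to be locally finite.

* `Main`: Let `G` act by isometries on a simply connected complex `X` of this kind such that each element
  fixing a vertex `x` has a power fixing a given neighbour of `x` (this holds if `X` is locally finite and
  also if the stabilizers are torsion groups). Suppose that for each vertex `x` there is a homomorphism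
  from `G` to a group in `C` whose kernel meets the stabilizer of `x` in a finite group. Then `G` is
  in `C`. There is no cocompactness assumption and `G` need not be finitely generated.
* `Proper`: each group which acts on such a complex with finite stabilizers of vertices is in `C`.
* `Products`: Let `G` act on two trees and suppose that for all vertices `x` of the first and `y` of the
  second tree the elements of the stabilizer of `x` and `y` have powers fixing given neighbours, and that
  there is a homomorphism from `G` to a group in `C` whose kernel meets the stabilizer of `x` and `y` in
  a finite group. Then `G` is in `C`.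
* `ProductsProper`: each group which acts on two trees such that the group of the elements fixing a vertex
  of the first and a vertex of the second tree is always finite is in `C`.

Examples: all discrete subgroups, cocompact or not, of the automorphism groups of locally finite
two-dimensional buildings and of products of two trees; the Kac-Moody groups over finite fields whose
Weyl group is a free product of groups of order two (they act on the product of their twin trees with
finite stabilizers, but with infinitely many orbits); extensions of groups in `C` with such kernels `N` if
the action of `N` extends to the extension; subgroups of `Aut(X) × L` with `L` in `C` which meet `Aut(X)`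
in a group acting properly.

The proof. A subcomplex of a complex of dimension two and of nonpositive curvature has nonpositive
curvature too. Let `H` be a finitely generated subgroup of `G` and `Y` a connected `H`-invariant subcomplex
with finitely many orbits of cells. The group of the lifts of the elements of `H` to the universal cover
of `Y` acts on the universal cover, and `G` is the directed colimit of these groups (`TD.col`), with the
kernels killed in larger complexes because `X` is simply connected. If the stabilizers are finite, these
groups are in `C` by `CatC C`. If the stabilizers are virtually cyclic and given by one homomorphism `f` to the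
integers, then either the stabilizers are finite or there is an infinite cyclic central subgroup
(`TD.exists_central`), whose quotient acts with finite stabilizers, and the extension criterion applies
to a homomorphism to this quotient and `ℤ` (`TD.thmZ`). In general the preimages of cyclic
subgroups under the given homomorphism act with such stabilizers (`TD.main`). Simple connectedness of the
product of trees is proved in `TD.sc_prod`, the link condition in `TD.cx_prod`.
-/

set_option autoImplicit false

namespace Pool.Agent.Results.MP_1a2884_al.TwoDimensionalComplexes

open Run7.h909.TD
open Pool.Agent.Y110.FJ (ClosedE)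
open SimpleGraph

/-- actions on complexes of dimension two with a homomorphism controlling the stabilizers -/
def Main (C : ∀ (G : Type) [Group G], Prop) : Prop :=
  ∀ (G V : Type) [Group G] [MulAction G V] (T : SimpleGraph V) (F : Set (ℤ → V))
    (ℓ : V → V → ℝ) (w : (ℤ → V) → ℝ),
    Cx T F ℓ w → SC T F → Ac G T F → Mi G T F ℓ w →
    (∀ x y : V, T.Adj x y → ∀ g : G, g • x = x → ∃ n : ℕ, 0 < n ∧ g ^ n • y = y) →
    (∀ x : V, ∃ (P : Type) (_ : Group P) (f : G →* P), C P ∧ {g : G | g • x = x ∧ f g = 1}.Finite) →
    C G

/-- actions on complexes of dimension two with finite stabilizers -/
def Proper (C : ∀ (G : Type) [Group G], Prop) : Prop :=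
  ∀ (G V : Type) [Group G] [MulAction G V] (T : SimpleGraph V) (F : Set (ℤ → V))
    (ℓ : V → V → ℝ) (w : (ℤ → V) → ℝ),
    Cx T F ℓ w → SC T F → Ac G T F → Mi G T F ℓ w → (∀ x : V, {g : G | g • x = x}.Finite) → C G

/-- actions on products of two trees with a homomorphism controlling the stabilizers -/
def Products (C : ∀ (G : Type) [Group G], Prop) : Prop :=
  ∀ (G V₁ V₂ : Type) [Group G] [MulAction G V₁] [MulAction G V₂] (T₁ : SimpleGraph V₁)
    (T₂ : SimpleGraph V₂), T₁.IsTree → T₂.IsTree →
    (∀ (g : G) (x y : V₁), T₁.Adj x y → T₁.Adj (g • x) (g • y)) →
    (∀ (g : G) (x y : V₂), T₂.Adj x y → T₂.Adj (g • x) (g • y)) →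
    (∀ (x : V₁) (y : V₂) (g : G), g • x = x → g • y = y →
      (∀ x', T₁.Adj x x' → ∃ n : ℕ, 0 < n ∧ g ^ n • x' = x') ∧
      ∀ y', T₂.Adj y y' → ∃ n : ℕ, 0 < n ∧ g ^ n • y' = y') →
    (∀ (x : V₁) (y : V₂), ∃ (P : Type) (_ : Group P) (f : G →* P), C P ∧
      {g : G | g • x = x ∧ g • y = y ∧ f g = 1}.Finite) → C G

/-- actions on two trees such that the intersections of the stabilizers are finite -/
def ProductsProper (C : ∀ (G : Type) [Group G], Prop) : Prop :=
  ∀ (G V₁ V₂ : Type) [Group G] [MulAction G V₁] [MulAction G V₂] (T₁ : SimpleGraph V₁)
    (T₂ : SimpleGraph V₂), T₁.IsTree → T₂.IsTree →
    (∀ (g : G) (x y : V₁), T₁.Adj x y → T₁.Adj (g • x) (g • y)) →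
    (∀ (g : G) (x y : V₂), T₂.Adj x y → T₂.Adj (g • x) (g • y)) →
    (∀ (x : V₁) (y : V₂), {g : G | g • x = x ∧ g • y = y}.Finite) → C G

/-- an element of a finite stabilizer has a power which is trivial -/
theorem pow_one_of_finite {G : Type} [Group G] (H : Subgroup G) (hH : (H : Set G).Finite) {g : G}
    (hg : g ∈ H) : ∃ n : ℕ, 0 < n ∧ g ^ n = 1 := by
  have : Finite H := hH.to_subtype
  obtain ⟨n, hn, h⟩ := isOfFinOrder_iff_pow_eq_one.1 (isOfFinOrder_of_finite (⟨g, hg⟩ : H))
  exact ⟨n, hn, congrArg Subtype.val h⟩

/-- **The Farrell-Jones class contains the groups acting properly on complexes of dimension two and of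
nonpositive curvature, without cocompactness, and the groups acting on such complexes whose stabilizers
are controlled by homomorphisms to groups in the class.** -/
theorem result (C : ∀ (G : Type) [Group G], Prop) (hC : ClosedE C) (hcat : CatC C) :
    Main C ∧ Proper C ∧ Products C ∧ ProductsProper C := by
  have hone : C (Multiplicative ℤ) := hC.base.int
  refine ⟨?_, ?_, ?_, ?_⟩
  · intro G V _ _ T F ℓ w hx hs hA hM hG h
    exact main hC hcat hx hs hA hM hG h
  · intro G V _ _ T F ℓ w hx hs hA hM hf
    refine main hC hcat hx hs hA hM ?_ ?_
    · intro x y _ g hg
      obtain ⟨n, hn, h⟩ := pow_one_of_finite (MulAction.stabilizer G x) (hf x) hg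
      exact ⟨n, hn, by rw [h, one_smul]⟩
    · exact fun x => ⟨Multiplicative ℤ, inferInstance, 1, hone, (hf x).subset fun g hg => hg.1⟩
  · intro G V₁ V₂ _ _ _ T₁ T₂ h1 h2 a1 a2 hg h
    exact trees hC hcat h1 h2 a1 a2 hg h
  · intro G V₁ V₂ _ _ _ T₁ T₂ h1 h2 a1 a2 hf
    refine trees hC hcat h1 h2 a1 a2 ?_ ?_
    · intro x y g hgx hgy
      obtain ⟨n, hn, h⟩ := pow_one_of_finite
        (MulAction.stabilizer G x ⊓ MulAction.stabilizer G y) (hf x y) ⟨hgx, hgy⟩
      exact ⟨fun x' _ => ⟨n, hn, by rw [h, one_smul]⟩, fun y' _ => ⟨n, hn, by rw [h, one_smul]⟩⟩
    · exact fun x y => ⟨Multiplicative ℤ, inferInstance, 1, hone,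
        (hf x y).subset fun g hg => ⟨hg.1, hg.2.1⟩⟩

end Pool.Agent.Results.MP_1a2884_al.TwoDimensionalComplexes
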